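import Pool.Agent.Helper22_DEN3.Scs2
import Pool.Agent.Helper18_DEN3.Ops
import Pool.Agent.Helper18_DEN3.Htr
import Pool.Agent.Helper63_DEN3.Exp
import Pool.Agent.Helper63_DEN3.Trc
import Pool.Agent.Helper91_DEN3.Sum
import Pool.Agent.Helper22_DEN2.Asm

/-!
# PLN: equidistribution
-/

open scoped BigOperators

namespace Pool.Agent.DEN.H223

open Pool.Agent.DEN

theorem hOps : OpsStmt := H183.ops
theorem hHtr : HtrStmt := H183.htr hScs2
theorem hExp : ExpStmt := H633.exp H22.hRF H22.hRS H22.hRD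
theorem hTrc : TrcStmt := H633.trc
theorem hSum : SumStmt := H913.sum

section
variable {r : ℕ} {C : Matrix (Fin r) (Fin r) ℤ} {K : Type} [Field K]

/-- An orthonormal family of cusp forms is linearly independent. -/
theorem lin_indep (hC : SimplyLaced C) [Finite K] {N : Polynomial K} (hN : N ≠ 0) {n : ℕ}
    (f : Fin n → XX C K → ℂ) (hf : ∀ j, IsCusp N (f j))
    (horth : ∀ i j, petersson N (f i) (f j) = if i = j then 1 else 0) :
    LinearIndependent ℂ f := by
  classical
  obtain ⟨T, hT, hsupp⟩ := H542.supp (C := C) hC hN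
  rw [Fintype.linearIndependent_iff]
  intro c hc i
  have h0 : ∀ x, ∑ j, c j * f j x = 0 := by
    intro x
    have := congrFun hc x
    simpa using this
  have key : ∀ j, petersson N (f i) (f j) = ∑ o ∈ hT.toFinset,
      (starRingEnd ℂ) (f i o.out) * f j o.out /
        Nat.card (MulAction.stabilizer (cong C K 1 N) o.out) := by
    intro j
    unfold petersson
    refine finsum_eq_sum_of_support_subset _ ?_
    intro o ho
    rw [Set.Finite.coe_toFinset]
    refine hsupp (f j) (hf j) o ?_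
    intro h
    apply ho
    simp [h]
  have h1 : ∑ j, c j * petersson N (f i) (f j) = 0 := by
    simp only [key, Finset.mul_sum]
    rw [Finset.sum_comm]
    refine Finset.sum_eq_zero fun o _ => ?_
    have h2 := h0 o.out
    calc ∑ j, c j * ((starRingEnd ℂ) (f i o.out) * f j o.out /
          Nat.card (MulAction.stabilizer (cong C K 1 N) o.out))
        = (starRingEnd ℂ) (f i o.out) /
          Nat.card (MulAction.stabilizer (cong C K 1 N) o.out) * ∑ j, c j * f j o.out := by
          rw [Finset.mul_sum]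
          refine Finset.sum_congr rfl fun j _ => ?_
          ring
      _ = 0 := by rw [h2, mul_zero]
  simp only [horth, mul_ite, mul_one, mul_zero] at h1
  simpa using h1

end

theorem pln : PlnStmt := by
  classical
  intro r C hC K _ _ hr M N hdegM hN hMN ψ hψ1 hψ2 hψ3 hψ4
  have hM0 : M ≠ 0 := by
    rintro rfl
    simp at hdegM
  have hle1 : cong C K 1 N ≤ cong C K 1 M := H183.cong_le_of_dvd hMN
  have hle2 : cong C K 1 M ≤ arith C K 1 := fun a ha => ha.1
  have hcusp : ∀ f ∈ VV (X := XX C K) (cong C K 1 M) ψ, IsCusp N f := fun f hf =>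
    H222.hCsp r C hC K M N hM0 hN ψ hψ1 (fun a ha => ⟨hle1 ha, hψ3 a ha⟩) hψ4 f hf
  obtain ⟨hsp, hfin, -⟩ := H222.hFdm r C hC K N hN
  have hVV : VV (X := XX C K) (cong C K 1 M) ψ ≤
      Submodule.span ℂ {f : XX C K → ℂ | IsCusp N f} := fun f hf =>
    (hsp f).mpr (hcusp f hf)
  have hfinV : Module.Finite ℂ (VV (X := XX C K) (cong C K 1 M) ψ) :=
    Submodule.finiteDimensional_of_le hVV
  refine ⟨hcusp, hfinV, ?_, ?_⟩
  · -- the lower bound for the dimension
    have hnM := (H22.hNrm r C hC K 1 M one_ne_zero hM0 isCoprime_one_left).1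
    have hnN := (H22.hNrm r C hC K 1 N one_ne_zero hN isCoprime_one_left).1
    have hstab := (H22.hFin r C hC K).1 (pt (1 : grp C K))
    obtain ⟨n, f, hn, hf1, hf2⟩ := H222.hFam (grp C K) (XX C K) (arith C K 1) (cong C K 1 M)
      (cong C K 1 N) (pt (1 : grp C K)) hle1 hle2 hnN hnM
      ((H22.hFin r C hC K).2.2 N hN) hstab
      (fun γ hγ g hg h => H222.hFre r C hC K M hdegM γ hγ g hg h) ψ hψ1 hψ2 hψ3
    have hf3 : ∀ j, f j ∈ VV (X := XX C K) (cong C K 1 M) ψ := fun j => hf1 j
    have hli := lin_indep hC hN f (fun j => hcusp _ (hf3 j)) hf2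
    have hli2 : LinearIndependent ℂ
        (fun j : Fin n => (⟨f j, hf3 j⟩ : VV (X := XX C K) (cong C K 1 M) ψ)) := by
      apply LinearIndependent.of_comp (VV (X := XX C K) (cong C K 1 M) ψ).subtype
      exact hli
    have hle := hli2.fintype_card_le_finrank
    rw [Fintype.card_fin] at hle
    exact hn.trans (Nat.mul_le_mul (H222.hIdx r C hC K).2 hle)
  · intro e he Q hQ hQN κ ρ A hκ hA κ' ρ' A' hκ' hA' hρ
    obtain ⟨o1, o2⟩ := hOps r C hC K M N hM0 hN hMN ψ hψ1 hψ3
    obtain ⟨a1, a2, a3⟩ := o1 κ ρ hκ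
    obtain ⟨b1, b2, b3⟩ := o2 Q hQ hQN κ' ρ' hκ'
    let T : VV (X := XX C K) (cong C K 1 M) ψ →ₗ[ℂ] VV (X := XX C K) (cong C K 1 M) ψ :=
      { toFun := fun f => ⟨Tinf κ (Tfin Q N κ' f.1), a3 _ (b3 _ f.2)⟩
        map_add' := fun f g => Subtype.ext (by
          show Tinf κ (Tfin Q N κ' (f.1 + g.1)) = _
          rw [b1, a1]
          rfl)
        map_smul' := fun c f => Subtype.ext (by
          show Tinf κ (Tfin Q N κ' (c • f.1)) = _
          rw [b2, a2]
          rfl) }
    refine ⟨T, fun f x => rfl, ?_⟩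
    obtain ⟨S, F, hS1, hS2, hS3, hS4⟩ := hTrc (grp C K) (XX C K) (cong C K 1 M) ψ hψ1 hψ2 hfinV
    rw [hS4 T, ← hS3]
    set W : ℕ := ρ + ρ' * Q.natDegree with hW
    set m : ℕ := M.natDegree - 1 - W with hm
    have hA0 : 0 ≤ A := (norm_nonneg _).trans (hA 1)
    have hA0' : 0 ≤ A' := (norm_nonneg _).trans (hA' 1)
    have hq1 : (1 : ℝ) ≤ Nat.card K := by
      exact_mod_cast (Finite.one_lt_card (α := K)).le
    have hq0 : (0 : ℝ) < Nat.card K := lt_of_lt_of_le one_pos hq1
    have e1 : ∑ x ∈ S, (T (F x)).1 x - κ 1 * κ' 1 * (S.card : ℂ) =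
        ∑ x ∈ S, ((T (F x)).1 x - κ 1 * κ' 1) := by
      rw [Finset.sum_sub_distrib, Finset.sum_const, nsmul_eq_mul]
      ring
    rw [e1]
    refine (norm_sum_le _ _).trans ?_
    have hsum := hSum r C hC K hr M N hM0 hN S hS1 (fun x hx => ⟨(F x).1, hcusp _ (F x).2, by
        rw [(hS2 x hx).1]; exact one_ne_zero⟩)
      (fun x => if x ∈ S then ‖(T (F x)).1 x - κ 1 * κ' 1‖ else 0)
      (A * A' * ((Nat.card K : ℝ) ^ (e * m))⁻¹) (by positivity) ?_
    · rw [Finset.sum_congr rfl (fun x hx => if_pos hx)] at hsum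
      refine hsum.trans_eq ?_
      ring
    · intro γ hγ l g hg hl
      by_cases hx : γ • pt g ∈ S
      · rw [if_pos hx]
        obtain ⟨c1, c2⟩ := hS2 _ hx
        have h1 := hHtr r C hC K M N Q hM0 hN hMN hQ hQN ψ hψ1 hψ2 hψ3 κ ρ A hκ hA κ' ρ' A' hκ'
          hA' hρ γ hγ l g hg hl (F (γ • pt g)).1 (F (γ • pt g)).2 c1 c2
        refine h1.trans ?_
        have hmW : (M.natDegree : ℤ) - 1 - ((ρ + ρ' * Q.natDegree : ℕ) : ℤ) = (m : ℤ) := by
          rw [hm, hW]
          omega
        rw [hmW]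
        split_ifs with h0
        · positivity
        · have h2 := hExp r C hC l hl m e he (Nat.pos_of_ne_zero h0)
          rw [mul_assoc (A * A')]
          refine mul_le_mul_of_nonneg_left ?_ (by positivity)
          rw [← div_eq_inv_mul, le_div_iff₀ (by positivity), ← pow_add]
          exact pow_le_pow_right₀ hq1 h2
      · rw [if_neg hx, zero_mul]
        positivity

end Pool.Agent.DEN.H223
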