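import Pool.Agent.Helper22_DEN2.Pub2

/-!
# Characters of the congruence subgroups, equivariant functions, Hecke operators
-/

open scoped BigOperators

namespace Pool.Agent.DEN.Pub

open Pool.Agent.DEN

section
variable {r : ℕ} {C : Matrix (Fin r) (Fin r) ℤ} {K : Type} [Field K]

/-- `ψ` is a unitary character of the principal congruence subgroup `Γ(M)` which is trivial on
`Γ(N)` and is cuspidal: for every maximal parabolic subgroup `P_i` and every `γ ∈ Γ` it is not trivial
on the intersection of `Γ(M)` with the unipotent radical of `γ P_i γ⁻¹`. -/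
structure IsCuspChar (M N : Polynomial K) (ψ : G C K → ℂ) : Prop where
  mul : ∀ a ∈ cong C K 1 M, ∀ b ∈ cong C K 1 M, ψ (a * b) = ψ a * ψ b
  norm_one : ∀ a ∈ cong C K 1 M, ‖ψ a‖ = 1
  triv : ∀ a ∈ cong C K 1 N, ψ a = 1
  cusp : ∀ γ ∈ arith C K 1, ∀ i, ∃ u ∈ rad C K i, u ∈ cong C K 1 M ∧ ψ (γ * u * γ⁻¹) ≠ 1

/-- The space `V_ψ` of the functions `f` on `X` with `f (γ x) = ψ(γ) f(x)` for `γ ∈ Γ(M)`. -/
def Vpsi (M : Polynomial K) (ψ : G C K → ℂ) : Submodule ℂ (X C K → ℂ) where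
  carrier := {f | ∀ γ ∈ cong C K 1 M, ∀ x, f (γ • x) = ψ γ * f x}
  add_mem' := by
    intro a b ha hb γ hγ x
    rw [Pi.add_apply, Pi.add_apply, ha γ hγ x, hb γ hγ x, mul_add]
  zero_mem' := by
    intro γ _ x
    simp
  smul_mem' := by
    intro c f hf γ hγ x
    rw [Pi.smul_apply, Pi.smul_apply, hf γ hγ x, smul_eq_mul, smul_eq_mul]
    ring

/-- The vector space `V_ψ`, as a type. -/
def VT (M : Polynomial K) (ψ : G C K → ℂ) : Type := ↥(Vpsi M ψ)

noncomputable instance (M : Polynomial K) (ψ : G C K → ℂ) : AddCommGroup (VT M ψ) :=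
  inferInstanceAs (AddCommGroup (Vpsi M ψ))

noncomputable instance (M : Polynomial K) (ψ : G C K → ℂ) : Module ℂ (VT M ψ) :=
  inferInstanceAs (Module ℂ (Vpsi M ψ))

/-- An element of `V_ψ`, as a function on `X`. -/
def VT.fn {M : Polynomial K} {ψ : G C K → ℂ} (f : VT M ψ) : X C K → ℂ := f.1

/-- `V_ψ` is finite dimensional. -/
def FinV (M : Polynomial K) (ψ : G C K → ℂ) : Prop := Module.Finite ℂ (VT M ψ)

/-- The dimension of `V_ψ`. -/
noncomputable def dimV (M : Polynomial K) (ψ : G C K → ℂ) : ℕ := Module.finrank ℂ (VT M ψ)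

/-- The linear operators on `V_ψ`. -/
def Op (M : Polynomial K) (ψ : G C K → ℂ) : Type := VT M ψ →ₗ[ℂ] VT M ψ

/-- The value of an operator. -/
def Op.ap {M : Polynomial K} {ψ : G C K → ℂ} (T : Op M ψ) (f : VT M ψ) : VT M ψ := T.toFun f

/-- The trace of an operator on `V_ψ`. -/
noncomputable def Op.tr {M : Polynomial K} {ψ : G C K → ℂ} (T : Op M ψ) : ℂ :=
  LinearMap.trace ℂ (VT M ψ) T

/-- The Hecke operator `T_κ` at the place `∞`. -/
noncomputable def Tinf (κ : G C K → ℂ) (f : X C K → ℂ) (x : X C K) : ℂ :=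
  ∑ᶠ y : X C K, κ ((rep x)⁻¹ * rep y) * f y

/-- The Hecke operator `T_κ` at the places dividing `P`, on the functions of level `N`. -/
noncomputable def Tfin (P N : Polynomial K) (κ : GP C K P → ℂ) (f : X C K → ℂ) (x : X C K) : ℂ :=
  ∑ᶠ δ : (cong C K P N) ⧸ (cong C K 1 N).subgroupOf (cong C K P N),
    κ ⟨δ.out.1, δ.out.2.1⟩ * f ((δ.out.1)⁻¹ • x)

/-- `T` is the restriction to `V_ψ` of the product `T_κ T_κ'` of the Hecke operators of `κ` at `∞`
and of `κ'` at the places dividing `Q`. -/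
def IsHecke (M N Q : Polynomial K) (ψ : G C K → ℂ) (κ : G C K → ℂ) (κ' : GP C K Q → ℂ)
    (T : Op M ψ) : Prop :=
  ∀ (f : VT M ψ) (x : X C K), (T.ap f).fn x = Tinf κ (Tfin Q N κ' f.fn) x

variable (C) in
/-- `e` is at most the height of every dominant root (the dominant roots are the highest roots of the
components of the root system; the height of the highest root is the Coxeter number minus `1`, that
is `r` for `A_r`, `2 r - 3` for `D_r` and `11`, `17`, `29` for `E₆`, `E₇`, `E₈`). -/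
def LeHeights (e : ℕ) : Prop :=
  ∀ θ : Rt C, (∀ i, 0 ≤ ip C (Pi.single i 1) θ.1) → (e : ℤ) ≤ ∑ i, θ.1 i

end

end Pool.Agent.DEN.Pub
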