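import Pool.Agent.Helper22_DEN2.Stmt

/-!
# Equidistribution of the Hecke eigenvalues: statements of the modules
-/

open scoped BigOperators

namespace Pool.Agent.DEN

/-- The functions which transform under `H` by `ψ`. -/
def VV {G X : Type} [Group G] [MulAction G X] (H : Subgroup G) (ψ : G → ℂ) :
    Submodule ℂ (X → ℂ) where
  carrier := {f | ∀ γ ∈ H, ∀ x, f (γ • x) = ψ γ * f x}
  add_mem' := by
    intro a b ha hb γ hγ x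
    rw [Pi.add_apply, Pi.add_apply, ha γ hγ x, hb γ hγ x, mul_add]
  zero_mem' := by
    intro γ _ x
    simp
  smul_mem' := by
    intro c f hf γ hγ x
    rw [Pi.smul_apply, Pi.smul_apply, hf γ hγ x, smul_eq_mul, smul_eq_mul]
    ring

section
variable {r : ℕ} {C : Matrix (Fin r) (Fin r) ℤ} {K : Type} [Field K]

/-- The Hecke operator at the place `∞`. -/
noncomputable def Tinf (κ : grp C K → ℂ) (f : XX C K → ℂ) (x : XX C K) : ℂ :=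
  ∑ᶠ y : XX C K, κ (x.out⁻¹ * y.out) * f y

/-- The Hecke operator at the place `P`, on the functions of level `N`. -/
noncomputable def Tfin (P N : Polynomial K) (κ : arith C K P → ℂ) (f : XX C K → ℂ)
    (x : XX C K) : ℂ :=
  ∑ᶠ δ : (cong C K P N) ⧸ (cong C K 1 N).subgroupOf (cong C K P N),
    κ ⟨δ.out.1, δ.out.2.1⟩ * f ((δ.out.1)⁻¹ • x)

variable (C) in
/-- `eb l m` is the sum of the `max (0, (β, l) - m)` over the roots `β` with `(β, l) > 0`. -/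
noncomputable def eb (l : Fin r → ℤ) (m : ℤ) : ℕ :=
  ∑ᶠ β : {β : Rt C // 0 < ip C β.1 l}, (ip C β.1.1 l - m).toNat

end

/-- SCT2: counting elements of `U_l` by their Cartan components, general exponents. -/
def Sct2Stmt : Prop :=
  ∀ (r : ℕ) (C : Matrix (Fin r) (Fin r) ℤ) (_ : SimplyLaced C) (K : Type) [Field K]
    (l : Fin r → ℤ), IsDom C l → ∀ (q : ℕ) (e : Rt C → ℕ) (Λ : Rt C → AddSubgroup (FF K)), 0 < q →
    (∀ β : Rt C, 0 < ip C β.1 l →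
      (Λ β : Set (FF K)).Finite ∧ Nat.card (Λ β) ≤ q ^ e β) →
    ∀ S : Finset (grp C K), (∀ s ∈ S, s ∈ Ul C K l 0) →
    (∀ s ∈ S, ∀ β : Rt C, 0 < ip C β.1 l → ∀ i, (s.1 (EE β.neg)).1 i ∈ Λ β) →
    S.card ≤ q ^ (∑ᶠ β : {β : Rt C // 0 < ip C β.1 l}, e β.1)

/-- SCS2: the number of elements of `Γ_P(M)` moving `t^l` by a small distance, refined. -/
def Scs2Stmt : Prop :=
  ∀ (r : ℕ) (C : Matrix (Fin r) (Fin r) ℤ) (_ : SimplyLaced C) (K : Type) [Field K] [Finite K]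
    (P M : Polynomial K), P ≠ 0 → M ≠ 0 → IsCoprime P M →
    ∀ (l : Fin r → ℤ) (g : grp C K), IsTor l g → IsDom C l → ∀ (M₁ M₂ : ℕ),
    M₁ + M₂ * P.natDegree < M.natDegree →
    ∀ S : Finset (grp C K), (∀ s ∈ S, s ∈ cong C K P M) → (∀ s ∈ S, bnd M₁ (g⁻¹ * s * g)) →
    (∀ s ∈ S, ∀ v : LieV C (FF K), Cd (ringA K 1) v →
      Cd (ringA K 1) (polyL K P ^ M₂ • (s.1 v))) →
    S.card ≤ Nat.card K ^ eb C l ((M.natDegree : ℤ) - 1 - (M₁ + M₂ * P.natDegree : ℕ))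

/-- EXP: the combinatorial inequality. -/
def ExpStmt : Prop :=
  ∀ (r : ℕ) (C : Matrix (Fin r) (Fin r) ℤ) (_ : SimplyLaced C) (l : Fin r → ℤ), IsDom C l →
    ∀ (m e : ℕ), (∀ θ : Rt C, IsDom C θ.1 → (e : ℤ) ≤ ht θ) → 0 < eb C l m →
    eb C l m + e * m ≤ dep C l

/-- TRC: the trace of an operator on the space of the `ψ`-equivariant functions (abstract). -/
def TrcStmt : Prop :=
  ∀ (G X : Type) [Group G] [MulAction G X] (H : Subgroup G) (ψ : G → ℂ),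
    (∀ a ∈ H, ∀ b ∈ H, ψ (a * b) = ψ a * ψ b) → (∀ a ∈ H, ‖ψ a‖ = 1) →
    Module.Finite ℂ (VV (X := X) H ψ) →
    ∃ (S : Finset X) (f : X → VV (X := X) H ψ),
      (∀ x ∈ S, ∀ y ∈ S, (∃ h ∈ H, h • x = y) → x = y) ∧
      (∀ x ∈ S, (f x).1 x = 1 ∧ ∀ y, (¬ ∃ h ∈ H, y = h • x) → (f x).1 y = 0) ∧
      S.card = Module.finrank ℂ (VV (X := X) H ψ) ∧
      ∀ A : VV (X := X) H ψ →ₗ[ℂ] VV (X := X) H ψ,
        LinearMap.trace ℂ _ A = ∑ x ∈ S, (A (f x)).1 x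

/-- OPS: the Hecke operators are linear and preserve the space of the `ψ`-equivariant functions
(from NRM). -/
def OpsStmt : Prop :=
  ∀ (r : ℕ) (C : Matrix (Fin r) (Fin r) ℤ) (_ : SimplyLaced C) (K : Type) [Field K]
    (M N : Polynomial K), M ≠ 0 → N ≠ 0 → M ∣ N → ∀ ψ : grp C K → ℂ,
    (∀ a ∈ cong C K 1 M, ∀ b ∈ cong C K 1 M, ψ (a * b) = ψ a * ψ b) →
    (∀ a ∈ cong C K 1 N, ψ a = 1) →
    (∀ (κ : grp C K → ℂ) (R : ℕ), HeckeInf κ R →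
      (∀ f g : XX C K → ℂ, Tinf κ (f + g) = Tinf κ f + Tinf κ g) ∧
      (∀ (c : ℂ) (f : XX C K → ℂ), Tinf κ (c • f) = c • Tinf κ f) ∧
      (∀ f ∈ VV (cong C K 1 M) ψ, Tinf κ f ∈ VV (cong C K 1 M) ψ)) ∧
    (∀ Q : Polynomial K, Q ≠ 0 → IsCoprime Q N → ∀ (κ : arith C K Q → ℂ) (R : ℕ),
      HeckeFin Q κ R →
      (∀ f g : XX C K → ℂ, Tfin Q N κ (f + g) = Tfin Q N κ f + Tfin Q N κ g) ∧
      (∀ (c : ℂ) (f : XX C K → ℂ), Tfin Q N κ (c • f) = c • Tfin Q N κ f) ∧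
      (∀ f ∈ VV (cong C K 1 M) ψ, Tfin Q N κ f ∈ VV (cong C K 1 M) ψ))

/-- HTR: the diagonal entries of the product of two Hecke operators (from SCS2, NRM, BDG, FIN). -/
def HtrStmt : Prop :=
  ∀ (r : ℕ) (C : Matrix (Fin r) (Fin r) ℤ) (_ : SimplyLaced C) (K : Type) [Field K] [Finite K]
    (M N Q : Polynomial K), M ≠ 0 → N ≠ 0 → M ∣ N → Q ≠ 0 → IsCoprime Q N → ∀ ψ : grp C K → ℂ,
    (∀ a ∈ cong C K 1 M, ∀ b ∈ cong C K 1 M, ψ (a * b) = ψ a * ψ b) →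
    (∀ a ∈ cong C K 1 M, ‖ψ a‖ = 1) → (∀ a ∈ cong C K 1 N, ψ a = 1) →
    ∀ (κ : grp C K → ℂ) (ρ : ℕ) (A : ℝ), HeckeInf κ ρ → (∀ g, ‖κ g‖ ≤ A) →
    ∀ (κ' : arith C K Q → ℂ) (ρ' : ℕ) (A' : ℝ), HeckeFin Q κ' ρ' → (∀ g, ‖κ' g‖ ≤ A') →
    ρ + ρ' * Q.natDegree < M.natDegree →
    ∀ γ ∈ arith C K 1, ∀ (l : Fin r → ℤ) (g : grp C K), IsTor l g → IsDom C l →
    ∀ f ∈ VV (cong C K 1 M) ψ, f (γ • pt g) = 1 →
      (∀ y, (¬ ∃ h ∈ cong C K 1 M, y = h • (γ • pt g)) → f y = 0) →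
      ‖Tinf κ (Tfin Q N κ' f) (γ • pt g) - κ 1 * κ' 1‖ *
          Nat.card (MulAction.stabilizer (cong C K 1 M) (γ • pt g)) ≤
        if eb C l ((M.natDegree : ℤ) - 1 - (ρ + ρ' * Q.natDegree : ℕ)) = 0 then 0 else
          A * A' * (Nat.card K : ℝ) ^
            eb C l ((M.natDegree : ℤ) - 1 - (ρ + ρ' * Q.natDegree : ℕ))

/-- SUM: the sum over the orbits of `Γ(M)` (from BIR, VAN, STL, MAS, FIN, ROOT). -/
def SumStmt : Prop :=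
  ∀ (r : ℕ) (C : Matrix (Fin r) (Fin r) ℤ) (_ : SimplyLaced C) (K : Type) [Field K] [Finite K]
    (_ : 0 < r) (M N : Polynomial K) (_ : M ≠ 0) (_ : N ≠ 0) (S : Finset (XX C K))
    (_ : ∀ x ∈ S, ∀ y ∈ S, (∃ h ∈ cong C K 1 M, h • x = y) → x = y)
    (_ : ∀ x ∈ S, ∃ f : XX C K → ℂ, IsCusp N f ∧ f x ≠ 0)
    (w : XX C K → ℝ) (B : ℝ) (_ : 0 ≤ B)
    (_ : ∀ γ ∈ arith C K 1, ∀ (l : Fin r → ℤ) (g : grp C K), IsTor l g → IsDom C l →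
      w (γ • pt g) * Nat.card (MulAction.stabilizer (cong C K 1 M) (γ • pt g)) ≤
        B * (Nat.card K : ℝ) ^ dep C l),
    ∑ x ∈ S, w x ≤ (N.natDegree : ℝ) ^ r * (cong C K 1 M).relIndex (arith C K 1) * B

/-- PLN: equidistribution (from all the others). -/
def PlnStmt : Prop :=
  ∀ (r : ℕ) (C : Matrix (Fin r) (Fin r) ℤ) (_ : SimplyLaced C) (K : Type) [Field K] [Finite K]
    (_ : 0 < r) (M N : Polynomial K), 0 < M.natDegree → N ≠ 0 → M ∣ N → ∀ ψ : grp C K → ℂ,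
    (∀ a ∈ cong C K 1 M, ∀ b ∈ cong C K 1 M, ψ (a * b) = ψ a * ψ b) →
    (∀ a ∈ cong C K 1 M, ‖ψ a‖ = 1) → (∀ a ∈ cong C K 1 N, ψ a = 1) →
    (∀ γ ∈ arith C K 1, ∀ i, ∃ u ∈ rad C K i, u ∈ cong C K 1 M ∧ ψ (γ * u * γ⁻¹) ≠ 1) →
    (∀ f ∈ VV (X := XX C K) (cong C K 1 M) ψ, IsCusp N f) ∧
    Module.Finite ℂ (VV (X := XX C K) (cong C K 1 M) ψ) ∧
    (cong C K 1 M).relIndex (arith C K 1) ≤
      Nat.card K ^ (r + Nat.card (Rt C)) ^ 2 *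
        Module.finrank ℂ (VV (X := XX C K) (cong C K 1 M) ψ) ∧
    ∀ (e : ℕ), (∀ θ : Rt C, IsDom C θ.1 → (e : ℤ) ≤ ht θ) →
    ∀ (Q : Polynomial K), Q ≠ 0 → IsCoprime Q N →
    ∀ (κ : grp C K → ℂ) (ρ : ℕ) (A : ℝ), HeckeInf κ ρ → (∀ g, ‖κ g‖ ≤ A) →
    ∀ (κ' : arith C K Q → ℂ) (ρ' : ℕ) (A' : ℝ), HeckeFin Q κ' ρ' → (∀ g, ‖κ' g‖ ≤ A') →
    ρ + ρ' * Q.natDegree < M.natDegree →
    ∃ T : VV (X := XX C K) (cong C K 1 M) ψ →ₗ[ℂ] VV (X := XX C K) (cong C K 1 M) ψ,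
      (∀ f x, (T f).1 x = Tinf κ (Tfin Q N κ' f.1) x) ∧
      ‖LinearMap.trace ℂ _ T -
          κ 1 * κ' 1 * Module.finrank ℂ (VV (X := XX C K) (cong C K 1 M) ψ)‖ ≤
        A * A' * (N.natDegree : ℝ) ^ r * (cong C K 1 M).relIndex (arith C K 1) *
          ((Nat.card K : ℝ) ^ (e * (M.natDegree - 1 - (ρ + ρ' * Q.natDegree))))⁻¹

end Pool.Agent.DEN
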